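import Mathlib

/-! Contraction groups: a nontrivial locally compact totally disconnected contraction group has a
normal subgroup `S` and `x ∈ S`, `x ≠ 1` centralising a neighbourhood of `1` in `S`.
Part 1: basic facts. -/

set_option autoImplicit false
set_option linter.unusedSectionVars false

namespace Pool.Agent.H15CG

open Filter Topology Set
open scoped Pointwise

universe u

variable {N : Type u} [Group N]

/-- the powers of an automorphism, as homomorphisms -/
def e (a : MulAut N) (k : ℤ) : N →* N := ((a ^ k : MulAut N) : N ≃* N).toMonoidHom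

theorem e_zero (a : MulAut N) (x : N) : e a 0 x = x := by
  simp [e]

theorem e_add (a : MulAut N) (j k : ℤ) (x : N) : e a (j + k) x = e a j (e a k x) := by
  simp [e, zpow_add]

theorem e_neg_cancel (a : MulAut N) (k : ℤ) (x : N) : e a (-k) (e a k x) = x := by
  rw [← e_add]; simp [e_zero]

theorem e_cancel_neg (a : MulAut N) (k : ℤ) (x : N) : e a k (e a (-k) x) = x := by
  rw [← e_add]; simp [e_zero]

theorem e_inj (a : MulAut N) (k : ℤ) : Function.Injective (e a k) := by
  intro x y h
  have := congrArg (e a (-k)) h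
  rwa [e_neg_cancel, e_neg_cancel] at this

theorem e_one_iff (a : MulAut N) (k : ℤ) (x : N) : e a k x = 1 ↔ x = 1 := by
  constructor
  · intro h
    apply e_inj a k
    rw [h, map_one]
  · rintro rfl
    exact map_one _

/-- `a ^ k • S` -/
def tw (a : MulAut N) (k : ℤ) (S : Subgroup N) : Subgroup N := S.comap (e a (-k))

theorem mem_tw {a : MulAut N} {k : ℤ} {S : Subgroup N} {x : N} :
    x ∈ tw a k S ↔ e a (-k) x ∈ S := Iff.rfl

theorem tw_tw (a : MulAut N) (j k : ℤ) (S : Subgroup N) : tw a j (tw a k S) = tw a (j + k) S := by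
  ext x
  rw [mem_tw, mem_tw, mem_tw, ← e_add]
  have : -k + -j = -(j + k) := by ring
  rw [this]

theorem tw_zero (a : MulAut N) (S : Subgroup N) : tw a 0 S = S := by
  ext x
  rw [mem_tw, neg_zero, e_zero]

theorem e_mem_tw {a : MulAut N} {k : ℤ} {S : Subgroup N} {x : N} (hx : x ∈ S) :
    e a k x ∈ tw a k S := by
  rw [mem_tw, e_neg_cancel]; exact hx

theorem tw_mono {a : MulAut N} {k : ℤ} {S S' : Subgroup N} (h : S ≤ S') : tw a k S ≤ tw a k S' :=
  fun _ hx => h hx

theorem tw_normal {a : MulAut N} {k : ℤ} {S : Subgroup N} (h : S.Normal) : (tw a k S).Normal :=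
  Subgroup.Normal.comap h _

variable [TopologicalSpace N] [IsTopologicalGroup N] [T2Space N]

/-- the automorphism `a` is bicontinuous and contracting -/
structure Con (a : MulAut N) : Prop where
  c : Continuous (fun x => e a 1 x)
  c' : Continuous (fun x => e a (-1) x)
  t : ∀ x, Tendsto (fun n : ℕ => e a n x) atTop (𝓝 1)

omit [IsTopologicalGroup N] [T2Space N] in
theorem Con.ce {a : MulAut N} (h : Con a) (k : ℤ) : Continuous (fun x => e a k x) := by
  induction k with
  | zero =>
    simp only [e_zero]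
    exact continuous_id
  | succ n ih =>
    have : (fun x => e a (n + 1) x) = (fun x => e a n x) ∘ (fun x => e a 1 x) := by
      funext x
      rw [e_add]; rfl
    rw [this]
    exact ih.comp h.c
  | pred n ih =>
    have : (fun x => e a (-n - 1) x) = (fun x => e a (-n) x) ∘ (fun x => e a (-1) x) := by
      funext x
      rw [sub_eq_add_neg, e_add]; rfl
    rw [this]
    exact ih.comp h.c'

omit [IsTopologicalGroup N] [T2Space N] in
theorem Con.isClosed_tw {a : MulAut N} (h : Con a) (k : ℤ) {S : Subgroup N}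
    (hS : IsClosed (S : Set N)) : IsClosed (tw a k S : Set N) :=
  hS.preimage (h.ce (-k))

omit [IsTopologicalGroup N] [T2Space N] in
theorem Con.isOpen_tw {a : MulAut N} (h : Con a) (k : ℤ) {S : Subgroup N}
    (hS : IsOpen (S : Set N)) : IsOpen (tw a k S : Set N) :=
  hS.preimage (h.ce (-k))

omit [IsTopologicalGroup N] [T2Space N] in
theorem Con.isCompact_tw {a : MulAut N} (h : Con a) (k : ℤ) {S : Subgroup N}
    (hS : IsCompact (S : Set N)) : IsCompact (tw a k S : Set N) := by
  have : (tw a k S : Set N) = (fun x => e a k x) '' (S : Set N) := by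
    ext x
    constructor
    · intro hx
      exact ⟨e a (-k) x, hx, e_cancel_neg a k x⟩
    · rintro ⟨y, hy, rfl⟩
      exact e_mem_tw hy
  rw [this]
  exact hS.image (h.ce k)

section LC

variable [LocallyCompactSpace N]

/-- van Dantzig -/
theorem vdt [TotallyDisconnectedSpace N] (O : Set N) (hO : O ∈ 𝓝 (1 : N)) :
    ∃ H : Subgroup N, IsOpen (H : Set N) ∧ IsCompact (H : Set N) ∧ (H : Set N) ⊆ O := by
  obtain ⟨K, hKn, hKO, hK⟩ := local_compact_nhds hO
  obtain ⟨W, hWc, h1W, hWK⟩ :=
    (loc_compact_Haus_tot_disc_of_zero_dim (H := N)).mem_nhds_iff.1 hKn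
  have hWc : IsClopen W := hWc
  have hWcomp : IsCompact W := hK.of_isClosed_subset hWc.isClosed hWK
  obtain ⟨T, hT, hWT⟩ := compact_open_separated_mul_right hWcomp hWc.isOpen (subset_refl W)
  let H : Subgroup N :=
    { carrier := {g | (∀ w ∈ W, w * g ∈ W) ∧ ∀ w ∈ W, w * g⁻¹ ∈ W}
      mul_mem' := by
        intro a b ha hb
        refine ⟨fun w hw => ?_, fun w hw => ?_⟩
        · rw [← mul_assoc]
          exact hb.1 _ (ha.1 w hw)
        · rw [mul_inv_rev, ← mul_assoc]
          exact ha.2 _ (hb.2 w hw)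
      one_mem' := by
        refine ⟨fun w hw => ?_, fun w hw => ?_⟩
        · rwa [mul_one]
        · rwa [inv_one, mul_one]
      inv_mem' := by
        intro a ha
        refine ⟨ha.2, fun w hw => ?_⟩
        rw [inv_inv]
        exact ha.1 w hw }
  have hHo : IsOpen (H : Set N) := by
    apply Subgroup.isOpen_of_mem_nhds (g := 1)
    have h2 : T⁻¹ ∈ 𝓝 (1 : N) := by
      have := inv_mem_nhds_one N hT
      exact this
    filter_upwards [hT, h2] with g hg hg'
    refine ⟨fun w hw => ?_, fun w hw => ?_⟩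
    · exact hWT (Set.mul_mem_mul hw hg)
    · exact hWT (Set.mul_mem_mul hw hg')
  have hHW : (H : Set N) ⊆ W := by
    intro g hg
    have h3 := hg.1 1 h1W
    rwa [one_mul] at h3
  exact ⟨H, hHo, hWcomp.of_isClosed_subset (Subgroup.isClosed_of_isOpen H hHo) hHW,
    hHW.trans (hWK.trans hKO)⟩

/-- the elements whose forward orbit stays in `W` -/
def pl (a : MulAut N) (W : Subgroup N) : Subgroup N :=
  ⨅ k : ℕ, W.comap (e a k)

omit [TopologicalSpace N] [IsTopologicalGroup N] [T2Space N] [LocallyCompactSpace N] in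
theorem mem_pl {a : MulAut N} {W : Subgroup N} {x : N} : x ∈ pl a W ↔ ∀ k : ℕ, e a k x ∈ W := by
  simp [pl, Subgroup.mem_iInf]

omit [TopologicalSpace N] [IsTopologicalGroup N] [T2Space N] [LocallyCompactSpace N] in
theorem pl_le {a : MulAut N} {W : Subgroup N} : pl a W ≤ W := by
  intro x hx
  have := mem_pl.1 hx 0
  simpa [e_zero] using this

omit [TopologicalSpace N] [IsTopologicalGroup N] [T2Space N] [LocallyCompactSpace N] in
theorem pl_inv {a : MulAut N} {W : Subgroup N} {x : N} (hx : x ∈ pl a W) (n : ℕ) :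
    e a n x ∈ pl a W := by
  rw [mem_pl]
  intro k
  rw [← e_add]
  have := mem_pl.1 hx (k + n)
  simpa using this

theorem pl_open {a : MulAut N} (h : Con a) {W : Subgroup N} (hW : IsOpen (W : Set N)) :
    IsOpen (pl a W : Set N) := by
  have hWc : IsClosed (W : Set N) := Subgroup.isClosed_of_isOpen W hW
  have hc : IsClosed (pl a W : Set N) := by
    have : (pl a W : Set N) = ⋂ k : ℕ, (fun x => e a k x) ⁻¹' (W : Set N) := by
      ext x
      simp [mem_pl]
    rw [this]
    exact isClosed_iInter fun k => hWc.preimage (h.ce k)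
  have hcov : (⋃ n : ℕ, (tw a (-n) (pl a W) : Set N)) = Set.univ := by
    rw [Set.eq_univ_iff_forall]
    intro x
    have h1 : ∀ᶠ n : ℕ in atTop, e a n x ∈ (W : Set N) :=
      (h.t x).eventually (hW.mem_nhds W.one_mem)
    obtain ⟨n, hn⟩ := eventually_atTop.1 h1
    refine mem_iUnion.2 ⟨n, ?_⟩
    change e a (- (-(n : ℤ))) x ∈ pl a W
    rw [neg_neg, mem_pl]
    intro k
    rw [← e_add]
    have := hn (k + n) (by omega)
    simpa using this
  obtain ⟨n, hn⟩ := nonempty_interior_of_iUnion_of_closed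
    (fun n : ℕ => h.isClosed_tw (-(n : ℤ)) hc) hcov
  obtain ⟨x, hx⟩ := hn
  have ho : IsOpen (tw a (-(n : ℤ)) (pl a W) : Set N) :=
    Subgroup.isOpen_of_mem_nhds _ (mem_interior_iff_mem_nhds.1 hx)
  have h2 := h.isOpen_tw (n : ℤ) ho
  rw [tw_tw] at h2
  simpa [tw_zero] using h2

/-- uniform contraction on compact sets -/
theorem unif [TotallyDisconnectedSpace N] {a : MulAut N} (h : Con a) {K : Set N}
    (hK : IsCompact K) {O : Set N} (hO : O ∈ 𝓝 (1 : N)) :
    ∃ m : ℕ, ∀ n : ℕ, m ≤ n → ∀ x ∈ K, e a n x ∈ O := by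
  obtain ⟨W, hWo, hWc, hWO⟩ := vdt O hO
  have hP := pl_open h hWo
  have hcov : K ⊆ ⋃ n : ℕ, (tw a (-(n : ℤ)) (pl a W) : Set N) := by
    intro x _
    have h1 : ∀ᶠ n : ℕ in atTop, e a n x ∈ (pl a W : Set N) :=
      (h.t x).eventually (hP.mem_nhds (pl a W).one_mem)
    obtain ⟨n, hn⟩ := eventually_atTop.1 h1
    refine mem_iUnion.2 ⟨n, ?_⟩
    change e a (- (-(n : ℤ))) x ∈ pl a W
    rw [neg_neg]
    exact hn n le_rfl
  have hmono : ∀ m n : ℕ, m ≤ n →
      (tw a (-(m : ℤ)) (pl a W) : Set N) ⊆ (tw a (-(n : ℤ)) (pl a W) : Set N) := by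
    intro m n hmn x hx
    change e a (- (-(n : ℤ))) x ∈ pl a W
    have hx' : e a (- (-(m : ℤ))) x ∈ pl a W := hx
    rw [neg_neg] at hx' ⊢
    have := pl_inv hx' (n - m)
    rw [← e_add] at this
    have h3 : (((n - m : ℕ) : ℤ) + m) = n := by omega
    rwa [h3] at this
  obtain ⟨m, hm⟩ := hK.elim_directed_cover _
    (fun n : ℕ => h.isOpen_tw (-(n : ℤ)) hP) hcov
    (directed_of_isDirected_le fun m n hmn => hmono m n hmn)
  refine ⟨m, fun n hn x hx => ?_⟩
  have h4 := hmono m n hn (hm hx)
  have h5 : e a (- (-(n : ℤ))) x ∈ pl a W := h4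
  rw [neg_neg] at h5
  exact hWO (pl_le h5)

end LC

end Pool.Agent.H15CG
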