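import Pool.Agent.H15CG.Main

/-! Part 4: the nonsolvable case and the conclusion. -/

set_option autoImplicit false
set_option linter.unusedSectionVars false

namespace Pool.Agent.H15CG

open Filter Topology Set
open scoped Pointwise commutatorElement

universe u

variable {N : Type u} [Group N] [TopologicalSpace N] [IsTopologicalGroup N] [T2Space N]
  [LocallyCompactSpace N] [TotallyDisconnectedSpace N]

/-- a maximal normal `B` between `aT` and `T`, solvable modulo `aT` -/
theorem exists_B {a : MulAut N} (h : Con a) {S T : Subgroup N} (hS : Good a S) (hT : TT a S T) :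
    ∃ B : Subgroup N, B.Normal ∧ tw a 1 T ≤ B ∧ B ≤ T ∧ (∃ n, dser B n ≤ tw a 1 T) ∧
      ∀ B' : Subgroup N, B'.Normal → B ≤ B' → B' ≤ T → (∃ n, dser B' n ≤ tw a 1 T) → B' ≤ B := by
  let A := tw a 1 T
  obtain ⟨O, hO1, hO2⟩ := hT.opn_tw h hS 1
  have hfin := fin_image (B := A) hT.cpt ⟨O, hO1, fun x hx hxO => hO2 x (hT.le hx) hxO⟩
  let F : Set (Subgroup N) := {B | B.Normal ∧ A ≤ B ∧ B ≤ T ∧ ∃ n, dser B n ≤ A}
  have hF : F.Finite := by
    refine Set.Finite.of_finite_image (f := fun B : Subgroup N =>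
      (QuotientGroup.mk : N → N ⧸ A) '' (B : Set N)) ?_ ?_
    · refine hfin.powerset.subset ?_
      rintro _ ⟨B, hB, rfl⟩
      exact Set.image_mono hB.2.2.1
    · intro B hB C hC hBC
      have haux : ∀ B C : Subgroup N, A ≤ C → (QuotientGroup.mk : N → N ⧸ A) '' (B : Set N)
          = (QuotientGroup.mk : N → N ⧸ A) '' (C : Set N) → B ≤ C := by
        intro B C hAC hEq x hx
        have : (QuotientGroup.mk x : N ⧸ A) ∈ (QuotientGroup.mk : N → N ⧸ A) '' (C : Set N) := by
          rw [← hEq]; exact ⟨x, hx, rfl⟩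
        obtain ⟨y, hy, hyx⟩ := this
        rw [QuotientGroup.eq] at hyx
        have := C.mul_mem hy (hAC hyx)
        rwa [mul_inv_cancel_left] at this
      exact le_antisymm (haux B C hC.2.1 hBC) (haux C B hB.2.1 hBC.symm)
  obtain ⟨B, hB⟩ := hF.exists_maximal ⟨A, tw_normal hT.nm, le_rfl, hT.tw_le 1, 0, le_rfl⟩
  refine ⟨B, hB.prop.1, hB.prop.2.1, hB.prop.2.2.1, hB.prop.2.2.2, ?_⟩
  intro B' h1 h2 h3 h4
  exact hB.le_of_ge ⟨h1, hB.prop.2.1.trans h2, h3, h4⟩ h2

theorem caseB {a : MulAut N} (h : Con a) {S T B : Subgroup N} (hS : Good a S) (hT : TT a S T)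
    (hmin : ∀ I : Subgroup N, Good a I → I ≤ S → I ≠ ⊥ → I = S)
    (hH : HH N) (hBn : B.Normal) (hAB : tw a 1 T ≤ B) (hBT : B ≤ T)
    (hBs : ∃ n, dser B n ≤ tw a 1 T)
    (hBm : ∀ B' : Subgroup N, B'.Normal → B ≤ B' → B' ≤ T → (∃ n, dser B' n ≤ tw a 1 T) → B' ≤ B)
    (hne : ¬ T ≤ B) : False := by
  obtain ⟨O, hO1, hO2⟩ := hT.opn_tw h hS 1
  have hBo : ∃ O ∈ 𝓝 (1 : N), ∀ x ∈ T, x ∈ O → x ∈ B :=
    ⟨O, hO1, fun x hx hxO => hAB (hO2 x (hT.le hx) hxO)⟩
  have hBcl : IsClosed (B : Set N) := rel_open_closed hT.cl hBT hBo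
  have hfin := fin_image (B := B) hT.cpt hBo
  set D := Cen T B hBn with hD
  have hDn : D.Normal := Cen_normal hT.nm hBn
  have hDf : D.FiniteIndex := Cen_finiteIndex hT.nm hBn hfin
  have hDcl : IsClosed (D : Set N) := Cen_closed hBn hBcl
  have hBD : B ≤ D := le_Cen hBn
  -- the centre of T / B is trivial
  have hZ : T ⊓ D ≤ B := by
    apply hBm
    · have := hT.nm
      infer_instance
    · exact le_inf hBT hBD
    · exact inf_le_left
    · obtain ⟨n, hn⟩ := hBs
      refine ⟨1 + n, ?_⟩
      rw [dser_add]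
      refine le_trans (dser_mono ?_ n) hn
      change ⁅T ⊓ D, T ⊓ D⁆ ≤ B
      rw [Subgroup.commutator_le]
      intro x hx y hy
      exact hx.2 y hy.1
  -- the intersection of all translates is trivial
  let I : Subgroup N := S ⊓ ⨅ k : ℤ, tw a k D
  have hI : ∀ x, x ∈ I ↔ x ∈ S ∧ ∀ k : ℤ, e a (-k) x ∈ D := by
    intro x
    simp only [I, Subgroup.mem_inf, Subgroup.mem_iInf, mem_tw]
  have hIgood : Good a I := by
    refine ⟨?_, ?_, ?_⟩
    · have : (I : Set N) = (S : Set N) ∩ ⋂ k : ℤ, (tw a k D : Set N) := by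
        ext x
        simp [I]
      rw [this]
      exact hS.cl.inter (isClosed_iInter fun k => h.isClosed_tw k hDcl)
    · refine ⟨fun x hx g => ?_⟩
      rw [hI] at hx ⊢
      refine ⟨hS.nm.conj_mem _ hx.1 g, fun k => ?_⟩
      rw [map_mul, map_mul, map_inv]
      exact hDn.conj_mem _ (hx.2 k) _
    · intro x
      rw [hI, hI, hS.inv]
      refine and_congr_right fun _ => ⟨fun hx k => ?_, fun hx k => ?_⟩
      · have := hx (k + 1)
        rw [← e_add] at this
        have h2 : -(k + 1) + 1 = -k := by ring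
        rwa [h2] at this
      · rw [← e_add]
        have := hx (k - 1)
        have h2 : -(k - 1) = -k + 1 := by ring
        rwa [h2] at this
  have hIbot : I = ⊥ := by
    by_contra hI0
    have hIS := hmin I hIgood inf_le_left hI0
    apply hne
    refine le_trans (le_inf le_rfl ?_) hZ
    intro x hx
    have h1 : x ∈ I := by rw [hIS]; exact hT.le hx
    have h2 := ((hI x).1 h1).2 0
    rwa [neg_zero, e_zero] at h2
  have hI1 : ∀ x, x ∈ S → (∀ k : ℤ, e a (-k) x ∈ D) → x = 1 := by
    intro x hx hk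
    have : x ∈ I := (hI x).2 ⟨hx, hk⟩
    rwa [hIbot, Subgroup.mem_bot] at this
  -- negative translates contain T
  have hneg : ∀ k : ℕ, 1 ≤ k → ∀ x ∈ T, e a k x ∈ D := by
    intro k hk x hx
    apply hBD
    apply hAB
    have h1 : (k : ℤ) = 1 + ((k - 1 : ℕ) : ℤ) := by omega
    rw [h1, e_add]
    exact e_mem_tw (hT.inv_n _ hx)
  by_cases hcase : ∃ m : ℕ, ∀ x ∈ S, (∀ k : ℕ, k < m → e a (-((k : ℤ) + 1)) x ∈ D) → x ∈ D
  · -- case B1
    obtain ⟨m, hm⟩ := hcase
    let M : Subgroup N := ⨅ k : Fin m, tw a (((k : ℕ) : ℤ) + 1) D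
    have hM : ∀ x, x ∈ M ↔ ∀ k : ℕ, k < m → e a (-((k : ℤ) + 1)) x ∈ D := by
      intro x
      simp only [M, Subgroup.mem_iInf, mem_tw]
      exact ⟨fun hx k hk => hx ⟨k, hk⟩, fun hx k => hx k k.2⟩
    have hMf : M.FiniteIndex := by
      apply Subgroup.finiteIndex_iInf
      intro k
      have : (tw a (((k : ℕ) : ℤ) + 1) D).index = D.index := by
        apply Subgroup.index_comap_of_surjective
        intro x
        exact ⟨_, e_neg_cancel a _ x⟩
      exact ⟨by rw [this]; exact hDf.index_ne_zero⟩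
    have hMD : ∀ x ∈ S, x ∈ M → x ∈ D := fun x hx hxM => hm x hx ((hM x).1 hxM)
    have haM : ∀ x ∈ S, x ∈ M → e a 1 x ∈ M := by
      intro x hx hxM
      rw [hM]
      intro k hk
      rw [← e_add]
      rcases Nat.eq_zero_or_pos k with rfl | hk0
      · have : (-(((0 : ℕ) : ℤ) + 1) + 1) = 0 := by norm_num
        rw [this, e_zero]
        exact hMD x hx hxM
      · have h2 := (hM x).1 hxM (k - 1) (by omega)
        have h3 : (-((((k - 1 : ℕ) : ℤ)) + 1)) = (-((k : ℤ) + 1) + 1) := by omega
        rwa [h3] at h2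
    have haMn : ∀ (n : ℕ), ∀ x ∈ S, x ∈ M → e a n x ∈ M := by
      intro n
      induction n with
      | zero => intro x _ hx; simpa [e_zero] using hx
      | succ n ih =>
        intro x hx hxM
        have : ((n + 1 : ℕ) : ℤ) = 1 + n := by push_cast; ring
        rw [this, e_add]
        exact haM _ ((hS.inv_k _ _).2 hx) (ih x hx hxM)
    -- pigeonhole: a⁻¹ M ⊆ M on S
    have haM' : ∀ x ∈ S, x ∈ M → e a (-1) x ∈ M := by
      intro x hx hxM
      by_contra hcon
      have hinj : Function.Injective fun i : ℕ => (QuotientGroup.mk (e a (-((i : ℤ) + 1)) x) : N ⧸ M) := by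
        have haux : ∀ i j : ℕ, i < j →
            (QuotientGroup.mk (e a (-((i : ℤ) + 1)) x) : N ⧸ M) ≠ QuotientGroup.mk (e a (-((j : ℤ) + 1)) x) := by
          intro i j hij hEq
          rw [QuotientGroup.eq] at hEq
          have hmemS : (e a (-((i : ℤ) + 1)) x)⁻¹ * e a (-((j : ℤ) + 1)) x ∈ S :=
            S.mul_mem (S.inv_mem ((hS.inv_k _ _).2 hx)) ((hS.inv_k _ _).2 hx)
          have h1 := haMn j _ hmemS hEq
          rw [map_mul, map_inv, ← e_add, ← e_add] at h1
          have h2 : (j : ℤ) + -((j : ℤ) + 1) = -1 := by ring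
          have h3 : (j : ℤ) + -((i : ℤ) + 1) = ((j - i - 1 : ℕ) : ℤ) := by omega
          rw [h2, h3] at h1
          have h4 := haMn (j - i - 1) x hx hxM
          apply hcon
          have := M.mul_mem h4 h1
          rwa [mul_inv_cancel_left] at this
        intro i j hij
        by_contra hne'
        rcases lt_or_gt_of_ne hne' with h5 | h5
        · exact haux i j h5 hij
        · exact haux j i h5 hij.symm
      exact not_injective_infinite_finite _ hinj
    have haMn' : ∀ (n : ℕ), ∀ x ∈ S, x ∈ M → e a (-(n : ℤ)) x ∈ M := by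
      intro n
      induction n with
      | zero => intro x _ hx; simpa [e_zero] using hx
      | succ n ih =>
        intro x hx hxM
        have : (-((n + 1 : ℕ) : ℤ)) = -1 + -(n : ℤ) := by push_cast; ring
        rw [this, e_add]
        exact haM' _ ((hS.inv_k _ _).2 hx) (ih x hx hxM)
    have hM1 : ∀ x ∈ S, x ∈ M → x = 1 := by
      intro x hx hxM
      apply hI1 x hx
      intro k
      apply hMD _ ((hS.inv_k _ _).2 hx)
      rcases Int.le_total 0 k with hk | hk
      · obtain ⟨n, rfl⟩ := Int.eq_ofNat_of_zero_le hk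
        exact haMn' n x hx hxM
      · obtain ⟨n, hn⟩ := Int.eq_ofNat_of_zero_le (neg_nonneg.2 hk)
        rw [hn]
        exact haMn n x hx hxM
    -- S is finite: contradiction
    obtain ⟨x, hx, hx1⟩ := hT.ne
    have hxS := hT.le hx
    have hinj : Function.Injective fun i : ℕ => (QuotientGroup.mk (e a i x) : N ⧸ M) := by
      have haux : ∀ i j : ℕ, i < j →
          (QuotientGroup.mk (e a i x) : N ⧸ M) ≠ QuotientGroup.mk (e a j x) := by
        intro i j hij hEq
        rw [QuotientGroup.eq] at hEq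
        have hmemS : (e a i x)⁻¹ * e a j x ∈ S :=
          S.mul_mem (S.inv_mem ((hS.inv_k _ _).2 hxS)) ((hS.inv_k _ _).2 hxS)
        have h1 := hM1 _ hmemS hEq
        have h2 : e a i x = e a j x := by
          rw [inv_mul_eq_one] at h1; exact h1
        have h3 : e a ((j - i : ℕ) : ℤ) x = x := by
          have h4 : (j : ℤ) = i + ((j - i : ℕ) : ℤ) := by omega
          rw [h4, e_add] at h2
          exact (e_inj a i h2).symm
        have h5 : ∀ n : ℕ, e a ((n * (j - i) : ℕ) : ℤ) x = x := by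
          intro n
          induction n with
          | zero => simp [e_zero]
          | succ n ih =>
            have : (((n + 1) * (j - i) : ℕ) : ℤ) = ((n * (j - i) : ℕ) : ℤ) + ((j - i : ℕ) : ℤ) := by
              push_cast; ring
            rw [this, e_add, h3, ih]
        have h6 : Tendsto (fun n : ℕ => e a ((n * (j - i) : ℕ) : ℤ) x) atTop (𝓝 1) := by
          have h7 : Tendsto (fun n : ℕ => n * (j - i)) atTop atTop :=
            tendsto_atTop_mono (fun n => Nat.le_mul_of_pos_right n (by omega)) tendsto_id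
          exact (h.t x).comp h7
        rw [show (fun n : ℕ => e a ((n * (j - i) : ℕ) : ℤ) x) = fun _ => x from funext h5] at h6
        exact hx1 (tendsto_nhds_unique tendsto_const_nhds h6)
      intro i j hij
      by_contra hne'
      rcases lt_or_gt_of_ne hne' with h5 | h5
      · exact haux i j h5 hij
      · exact haux j i h5 hij.symm
    exact not_injective_infinite_finite _ hinj
  · -- case B2
    push Not at hcase
    let K : ℕ → Set N := fun m => ((T : Set N) \ (B : Set N)) ∩
      ⋂ k : Fin m, (tw a (((k : ℕ) : ℤ) + 1) D : Set N)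
    have hK : ∀ m x, x ∈ K m ↔ (x ∈ T ∧ x ∉ B) ∧ ∀ k : ℕ, k < m → e a (-((k : ℤ) + 1)) x ∈ D := by
      intro m x
      simp only [K, mem_inter_iff, Set.mem_sdiff, SetLike.mem_coe, mem_iInter, mem_tw]
      exact and_congr_right fun _ => ⟨fun hx k hk => hx ⟨k, hk⟩, fun hx k => hx k k.2⟩
    have hKne : (⋂ m, K m).Nonempty := by
      apply IsCompact.nonempty_iInter_of_sequence_nonempty_isCompact_isClosed
      · intro m x hx
        rw [hK] at hx ⊢
        exact ⟨hx.1, fun k hk => hx.2 k (by omega)⟩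
      · intro m
        obtain ⟨y, hyS, hyk, hyD⟩ := hcase m
        rw [hD, mem_Cen] at hyD
        push Not at hyD
        obtain ⟨t, ht, hyt⟩ := hyD
        refine ⟨⁅y, t⁆, ?_⟩
        rw [hK]
        refine ⟨⟨comm_mem_right hT.nm ht, hyt⟩, fun k hk => ?_⟩
        rw [map_commutatorElement]
        exact comm_mem_left hDn (hyk k hk)
      · have : K 0 = (T : Set N) \ (B : Set N) := by
          ext x
          rw [hK]
          simp
        rw [this]
        exact hT.cpt.of_isClosed_subset (rel_open_compl hT.cl hBo) Set.sdiff_subset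
      · intro m
        exact (rel_open_compl hT.cl hBo).inter
          (isClosed_iInter fun k => h.isClosed_tw _ hDcl)
    obtain ⟨x, hx⟩ := hKne
    rw [mem_iInter] at hx
    have hxT : x ∈ T := ((hK 0 x).1 (hx 0)).1.1
    have hxB : x ∉ B := ((hK 0 x).1 (hx 0)).1.2
    have hxk : ∀ k : ℕ, e a (-((k : ℤ) + 1)) x ∈ D := fun k =>
      ((hK (k + 1) x).1 (hx (k + 1))).2 k (by omega)
    have hx1 : x ≠ 1 := fun h1 => hxB (by rw [h1]; exact B.one_mem)
    obtain ⟨v, hvT, hvO, hxv⟩ := hH T hT.nm x hxT hx1 O hO1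
    apply hxv
    have hvA : v ∈ tw a 1 T := hO2 v (hT.le hvT) hvO
    have : ⁅x, v⁆ = 1 := by
      apply hI1
      · exact hT.le (comm_mem_left hT.nm hxT)
      · intro k
        rcases lt_trichotomy k 0 with hk | hk | hk
        · obtain ⟨n, hn⟩ := Int.eq_ofNat_of_zero_le (neg_nonneg.2 hk.le)
          rw [hn]
          exact hneg n (by omega) _ (comm_mem_left hT.nm hxT)
        · rw [hk, neg_zero, e_zero]
          exact hBD (hAB (comm_mem_right (tw_normal hT.nm) hvA))
        · obtain ⟨n, hn⟩ := Int.eq_ofNat_of_zero_le hk.le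
          have h8 : -k = -(((n - 1 : ℕ) : ℤ) + 1) := by omega
          rw [h8, map_commutatorElement]
          exact comm_mem_left hDn (hxk (n - 1))
    exact commutatorElement_eq_one_iff_mul_comm.1 this

/-- A contraction group satisfying the non-centrality condition is trivial. -/
theorem trivial_of_HH {a : MulAut N} (h : Con a) (hH : HH N) (x : N) : x = 1 := by
  by_contra hx
  obtain ⟨V, hV⟩ := exists_base h
  obtain ⟨S, hS, hS0, hmin⟩ := exists_minimal h hV ⟨x, hx⟩
  obtain ⟨T, hT⟩ := exists_TT h hV hS hS0 hmin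
  have hp : ∀ D : Subgroup N, IsClosed (D : Set N) → ⁅S, S⁆ ≤ D → S ≤ D := by
    intro D hD hSD
    have hSn := hS.nm
    have hg : Good a (⁅S, S⁆).topologicalClosure := by
      refine ⟨Subgroup.isClosed_topologicalClosure _, Subgroup.is_normal_topologicalClosure _, ?_⟩
      have hmaps : ∀ k : ℤ, ∀ y ∈ (⁅S, S⁆).topologicalClosure,
          e a k y ∈ (⁅S, S⁆).topologicalClosure := by
        intro k y hy
        refine map_mem_closure (h.ce k) hy (fun z hz => ?_)
        have h1 : e a k z ∈ (⁅S, S⁆).map (e a k) := ⟨z, hz, rfl⟩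
        rw [Subgroup.map_commutator] at h1
        refine Subgroup.commutator_mono ?_ ?_ h1
        · rintro _ ⟨w, hw, rfl⟩
          exact (hS.inv_k _ _).2 hw
        · rintro _ ⟨w, hw, rfl⟩
          exact (hS.inv_k _ _).2 hw
      intro x
      constructor
      · intro hx
        have := hmaps (-1) _ hx
        rwa [e_neg_cancel] at this
      · exact hmaps 1 x
    have hle : (⁅S, S⁆).topologicalClosure ≤ S :=
      Subgroup.topologicalClosure_minimal _ (Subgroup.commutator_le_left S S) hS.cl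
    have hne : (⁅S, S⁆).topologicalClosure ≠ ⊥ := by
      intro hb
      obtain ⟨y, hy, hy1⟩ := hT.ne
      obtain ⟨v, hv, -, hyv⟩ := hH T hT.nm y hy hy1 Set.univ univ_mem
      apply hyv
      have h2 : ⁅y, v⁆ ∈ (⁅S, S⁆).topologicalClosure := Subgroup.le_topologicalClosure _
        (Subgroup.commutator_mem_commutator (hT.le hy) (hT.le hv))
      rw [hb, Subgroup.mem_bot] at h2
      exact commutatorElement_eq_one_iff_mul_comm.1 h2
    have hEq := hmin _ hg hle hne
    rw [← hEq]
    exact Subgroup.topologicalClosure_minimal _ hSD hD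
  obtain ⟨B, hBn, hAB, hBT, hBs, hBm⟩ := exists_B h hS hT
  by_cases hTB : T ≤ B
  · have : T = B := le_antisymm hTB hBT
    subst this
    obtain ⟨n, hn⟩ := hBs
    exact caseA h hS hT hH hp hn
  · exact caseB h hS hT hmin hH hBn hAB hBT hBs hBm hTB

end Pool.Agent.H15CG
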