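import Pool.Agent.H15CG.Min

/-! Part 3: the main argument. -/

set_option autoImplicit false
set_option linter.unusedSectionVars false

namespace Pool.Agent.H15CG

open Filter Topology Set
open scoped Pointwise commutatorElement

universe u

section Alg

variable {N : Type u} [Group N]

/-- derived series of a subgroup -/
def dser (H : Subgroup N) : ℕ → Subgroup N
  | 0 => H
  | n + 1 => ⁅dser H n, dser H n⁆

theorem dser_mono {H K : Subgroup N} (h : H ≤ K) (n : ℕ) : dser H n ≤ dser K n := by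
  induction n with
  | zero => exact h
  | succ n ih => exact Subgroup.commutator_mono ih ih

theorem dser_add (H : Subgroup N) (m n : ℕ) : dser H (m + n) = dser (dser H m) n := by
  induction n with
  | zero => rfl
  | succ n ih =>
    change ⁅dser H (m + n), dser H (m + n)⁆ = _
    rw [ih]
    rfl

theorem dser_map {M : Type u} [Group M] (f : N →* M) (H : Subgroup N) (n : ℕ) :
    (dser H n).map f = dser (H.map f) n := by
  induction n with
  | zero => rfl
  | succ n ih =>
    change (⁅dser H n, dser H n⁆).map f = ⁅dser (H.map f) n, dser (H.map f) n⁆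
    rw [Subgroup.map_commutator, ih]

theorem tw_eq_map (a : MulAut N) (k : ℤ) (S : Subgroup N) : tw a k S = S.map (e a k) := by
  ext x
  constructor
  · intro hx
    exact ⟨e a (-k) x, hx, e_cancel_neg a k x⟩
  · rintro ⟨y, hy, rfl⟩
    exact e_mem_tw hy

theorem dser_tw (a : MulAut N) (k : ℤ) (S : Subgroup N) (n : ℕ) :
    dser (tw a k S) n = tw a k (dser S n) := by
  rw [tw_eq_map, tw_eq_map, dser_map]

theorem solv_tw {a : MulAut N} {T : Subgroup N} {n : ℕ} (h : dser T n ≤ tw a 1 T) (i : ℕ) :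
    dser T (n * i) ≤ tw a i T := by
  induction i with
  | zero =>
    have : tw a ((0 : ℕ) : ℤ) T = T := by simpa using tw_zero a T
    rw [this]
    exact le_rfl
  | succ i ih =>
    have h1 : n * (i + 1) = n + n * i := by ring
    rw [h1, dser_add]
    refine (dser_mono h _).trans ?_
    rw [dser_tw]
    have h2 : tw a ((i + 1 : ℕ) : ℤ) T = tw a 1 (tw a i T) := by
      rw [tw_tw]; congr 1; push_cast; ring
    rw [h2]
    exact tw_mono ih

/-- centraliser of `T` modulo `B` -/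
def Cen (T B : Subgroup N) (hB : B.Normal) : Subgroup N where
  carrier := {x | ∀ t ∈ T, ⁅x, t⁆ ∈ B}
  mul_mem' := by
    intro x y hx hy t ht
    have h : ⁅x * y, t⁆ = (x * ⁅y, t⁆ * x⁻¹) * ⁅x, t⁆ := by
      simp only [commutatorElement_def]; group
    rw [h]
    exact B.mul_mem (hB.conj_mem _ (hy t ht) x) (hx t ht)
  one_mem' := by
    intro t _
    simp [commutatorElement_def]
  inv_mem' := by
    intro x hx t ht
    have h : ⁅x⁻¹, t⁆ = x⁻¹ * ⁅x, t⁆⁻¹ * x⁻¹⁻¹ := by
      simp only [commutatorElement_def]; group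
    rw [h]
    exact hB.conj_mem _ (B.inv_mem (hx t ht)) _

theorem mem_Cen {T B : Subgroup N} {hB : B.Normal} {x : N} :
    x ∈ Cen T B hB ↔ ∀ t ∈ T, ⁅x, t⁆ ∈ B := Iff.rfl

theorem comm_mem_left {B : Subgroup N} (hB : B.Normal) {x t : N} (hx : x ∈ B) : ⁅x, t⁆ ∈ B := by
  have h : ⁅x, t⁆ = x * (t * x⁻¹ * t⁻¹) := by simp only [commutatorElement_def]; group
  rw [h]
  exact B.mul_mem hx (hB.conj_mem _ (B.inv_mem hx) t)

theorem comm_mem_right {B : Subgroup N} (hB : B.Normal) {x t : N} (ht : t ∈ B) : ⁅x, t⁆ ∈ B := by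
  have h : ⁅x, t⁆ = (x * t * x⁻¹) * t⁻¹ := by simp only [commutatorElement_def]
  rw [h]
  exact B.mul_mem (hB.conj_mem _ ht x) (B.inv_mem ht)

theorem Cen_normal {T B : Subgroup N} (hT : T.Normal) (hB : B.Normal) : (Cen T B hB).Normal := by
  refine ⟨fun x hx g t ht => ?_⟩
  have h : ⁅g * x * g⁻¹, t⁆ = g * ⁅x, g⁻¹ * t * g⁻¹⁻¹⁆ * g⁻¹ := by
    simp only [commutatorElement_def]; group
  rw [h]
  exact hB.conj_mem _ (hx _ (hT.conj_mem _ ht _)) g

theorem le_Cen {T B : Subgroup N} (hB : B.Normal) : B ≤ Cen T B hB :=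
  fun _ hx _ _ => comm_mem_left hB hx

theorem Cen_finiteIndex {T B : Subgroup N} (hT : T.Normal) (hB : B.Normal)
    (hfin : ((QuotientGroup.mk : N → N ⧸ B) '' (T : Set N)).Finite) :
    (Cen T B hB).FiniteIndex := by
  let π : N →* N ⧸ B := QuotientGroup.mk' B
  let Tb : Subgroup (N ⧸ B) := T.map π
  have hTb : Tb.Normal := Subgroup.Normal.map hT π (QuotientGroup.mk'_surjective B)
  have hTf : Finite Tb := by
    have : (Tb : Set (N ⧸ B)) = (QuotientGroup.mk : N → N ⧸ B) '' (T : Set N) := by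
      ext x
      simp [Tb, π]
    exact (this ▸ hfin : (Tb : Set (N ⧸ B)).Finite).to_subtype
  have hAf : Finite (MulAut Tb) := Finite.of_injective (fun f : MulAut Tb => (f : Tb → Tb))
    DFunLike.coe_injective
  let f : N →* MulAut Tb := (MulAut.conjNormal (H := Tb)).comp π
  have hr : Finite f.range := inferInstance
  have hle : f.ker ≤ Cen T B hB := by
    intro x hx t ht
    have h1 : f x = 1 := hx
    have h2 := congrArg (fun g : MulAut Tb => ((g ⟨π t, ⟨t, ht, rfl⟩⟩ : Tb) : N ⧸ B)) h1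
    simp only [f, MonoidHom.comp_apply, MulAut.conjNormal_apply, MulAut.one_apply] at h2
    rw [← QuotientGroup.eq_one_iff]
    have h3 : ((⁅x, t⁆ : N) : N ⧸ B) = π x * π t * (π x)⁻¹ * (π t)⁻¹ := by
      simp [π, commutatorElement_def]
    rw [h3, h2, mul_inv_cancel]
  exact Subgroup.finiteIndex_of_le hle

end Alg

variable {N : Type u} [Group N] [TopologicalSpace N] [IsTopologicalGroup N] [T2Space N]

theorem Cen_closed {T B : Subgroup N} (hB : B.Normal) (hBc : IsClosed (B : Set N)) :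
    IsClosed (Cen T B hB : Set N) := by
  have : (Cen T B hB : Set N) = ⋂ t ∈ T, (fun x => ⁅x, t⁆) ⁻¹' (B : Set N) := by
    ext x
    simp only [SetLike.mem_coe, mem_iInter, mem_preimage]
    exact Iff.rfl
  rw [this]
  refine isClosed_biInter fun t _ => hBc.preimage ?_
  simp only [commutatorElement_def]
  fun_prop

/-- `B` relatively open in compact `T` gives finite image -/
theorem fin_image {T B : Subgroup N} (hTc : IsCompact (T : Set N))
    (hO : ∃ O ∈ 𝓝 (1 : N), ∀ x ∈ T, x ∈ O → x ∈ B) :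
    ((QuotientGroup.mk : N → N ⧸ B) '' (T : Set N)).Finite := by
  obtain ⟨O, hO1, hO2⟩ := hO
  obtain ⟨U, hUO, hUo, h1U⟩ := mem_nhds_iff.1 hO1
  obtain ⟨F, hF⟩ := hTc.elim_finite_subcover
    (fun t : T => {x : N | (t : N)⁻¹ * x ∈ U})
    (fun t => hUo.preimage (continuous_const_mul _))
    (by
      intro x hx
      refine mem_iUnion.2 ⟨⟨x, hx⟩, ?_⟩
      change x⁻¹ * x ∈ U
      rw [inv_mul_cancel]; exact h1U)
  refine (F.finite_toSet.image (fun t : T => (QuotientGroup.mk (t : N) : N ⧸ B))).subset ?_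
  rintro _ ⟨x, hx, rfl⟩
  obtain ⟨t, ht1, ht2⟩ := mem_iUnion₂.1 (hF hx)
  refine ⟨t, ht1, ?_⟩
  change (QuotientGroup.mk (t : N) : N ⧸ B) = QuotientGroup.mk x
  rw [QuotientGroup.eq]
  exact hO2 _ (T.mul_mem (T.inv_mem t.2) hx) (hUO ht2)

theorem rel_open_closed {T B : Subgroup N} (hTc : IsClosed (T : Set N)) (hBT : B ≤ T)
    (hO : ∃ O ∈ 𝓝 (1 : N), ∀ x ∈ T, x ∈ O → x ∈ B) : IsClosed (B : Set N) := by
  obtain ⟨O, hO1, hO2⟩ := hO
  obtain ⟨U, hUO, hUo, h1U⟩ := mem_nhds_iff.1 hO1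
  rw [← closure_subset_iff_isClosed]
  intro x hx
  have hxT : x ∈ T := hTc.closure_subset_iff.2 (fun y hy => hBT hy) hx
  have hop : IsOpen {b : N | b⁻¹ * x ∈ U} := hUo.preimage (by fun_prop)
  obtain ⟨b, hb1, hb2⟩ := mem_closure_iff.1 hx _ hop (by
    change x⁻¹ * x ∈ U
    rw [inv_mul_cancel]; exact h1U)
  have h3 := hO2 _ (T.mul_mem (T.inv_mem (hBT hb2)) hxT) (hUO hb1)
  have := B.mul_mem hb2 h3
  rwa [mul_inv_cancel_left] at this

theorem rel_open_compl {T B : Subgroup N} (hTc : IsClosed (T : Set N))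
    (hO : ∃ O ∈ 𝓝 (1 : N), ∀ x ∈ T, x ∈ O → x ∈ B) : IsClosed ((T : Set N) \ (B : Set N)) := by
  obtain ⟨O, hO1, hO2⟩ := hO
  obtain ⟨U, hUO, hUo, h1U⟩ := mem_nhds_iff.1 hO1
  rw [← closure_subset_iff_isClosed]
  intro x hx
  have hxT : x ∈ T := hTc.closure_subset_iff.2 (fun y hy => hy.1) hx
  refine ⟨hxT, fun hxB => ?_⟩
  have hop : IsOpen {b : N | x⁻¹ * b ∈ U} := hUo.preimage (by fun_prop)
  obtain ⟨b, hb1, hb2⟩ := mem_closure_iff.1 hx _ hop (by
    change x⁻¹ * x ∈ U
    rw [inv_mul_cancel]; exact h1U)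
  have h3 := hO2 _ (T.mul_mem (T.inv_mem hxT) hb2.1) (hUO hb1)
  apply hb2.2
  have := B.mul_mem hxB h3
  rwa [mul_inv_cancel_left] at this

/-- the local non-centrality condition -/
def HH (N : Type u) [Group N] [TopologicalSpace N] : Prop :=
  ∀ S : Subgroup N, S.Normal → ∀ x ∈ S, x ≠ 1 → ∀ W ∈ 𝓝 (1 : N), ∃ v ∈ S, v ∈ W ∧ x * v ≠ v * x

variable [LocallyCompactSpace N] [TotallyDisconnectedSpace N]

theorem inter_tw {a : MulAut N} (h : Con a) {T : Subgroup N} (hTc : IsCompact (T : Set N)) {c : N}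
    (hc : ∀ j : ℕ, c ∈ tw a j T) : c = 1 := by
  by_contra hne
  obtain ⟨m, hm⟩ := unif h hTc (O := {c}ᶜ) (isOpen_compl_singleton.mem_nhds (fun h => hne h.symm))
  exact hm m le_rfl _ (hc m) (e_cancel_neg a m c)

theorem TT.inv_n {a : MulAut N} {S T : Subgroup N} (hT : TT a S T) (n : ℕ) {x : N} (hx : x ∈ T) :
    e a n x ∈ T := by
  induction n with
  | zero => simpa [e_zero] using hx
  | succ n ih =>
    have : ((n + 1 : ℕ) : ℤ) = 1 + n := by push_cast; ring
    rw [this, e_add]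
    exact hT.inv _ ih

theorem TT.tw_le {a : MulAut N} {S T : Subgroup N} (hT : TT a S T) (n : ℕ) : tw a n T ≤ T := by
  intro x hx
  have := hT.inv_n n hx
  rwa [e_cancel_neg] at this

theorem TT.tw_anti {a : MulAut N} {S T : Subgroup N} (hT : TT a S T) {j k : ℤ} (h : j ≤ k) :
    tw a k T ≤ tw a j T := by
  obtain ⟨n, hn⟩ := Int.le.dest h
  have : tw a k T = tw a j (tw a n T) := by rw [tw_tw, hn]
  rw [this]
  exact tw_mono (hT.tw_le n)

theorem TT.opn_tw {a : MulAut N} (h : Con a) {S T : Subgroup N} (hS : Good a S) (hT : TT a S T)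
    (k : ℤ) : ∃ O ∈ 𝓝 (1 : N), ∀ x ∈ S, x ∈ O → x ∈ tw a k T := by
  obtain ⟨O, hO1, hO2⟩ := hT.opn
  refine ⟨(fun x => e a (-k) x) ⁻¹' O, ?_, fun x hx hxO => ?_⟩
  · apply (h.ce (-k)).continuousAt.preimage_mem_nhds
    rw [map_one]; exact hO1
  · exact hO2 _ ((hS.inv_k _ _).2 hx) hxO

/-- topological perfectness gives: solvable quotient trivial -/
theorem perfect_dser {S : Subgroup N}
    (hp : ∀ D : Subgroup N, IsClosed (D : Set N) → ⁅S, S⁆ ≤ D → S ≤ D) (r : ℕ) :
    ∀ D : Subgroup N, IsClosed (D : Set N) → dser S r ≤ D → S ≤ D := by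
  induction r with
  | zero => exact fun D _ h => h
  | succ r ih =>
    intro D hD h
    apply hp D hD
    have h1 := ih (dser S r).topologicalClosure (Subgroup.isClosed_topologicalClosure _)
      (Subgroup.le_topologicalClosure _)
    rw [Subgroup.commutator_le]
    intro x hx y hy
    have hx' : x ∈ closure (dser S r : Set N) := h1 hx
    have hy' : y ∈ closure (dser S r : Set N) := h1 hy
    have hc : Continuous (Function.uncurry fun x y : N => ⁅x, y⁆) := by
      simp only [commutatorElement_def, Function.uncurry_def]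
      fun_prop
    have := map_mem_closure₂ hc hx' hy' (u := (D : Set N)) (fun p hp q hq =>
      h (Subgroup.commutator_mem_commutator hp hq))
    rwa [hD.closure_eq] at this

theorem caseA {a : MulAut N} (h : Con a) {S T : Subgroup N} (hS : Good a S) (hT : TT a S T)
    (hH : HH N)
    (hp : ∀ D : Subgroup N, IsClosed (D : Set N) → ⁅S, S⁆ ≤ D → S ≤ D)
    {n : ℕ} (hn : dser T n ≤ tw a 1 T) : False := by
  have key : ∀ j : ℕ, S ≤ Cen T (tw a j T) (tw_normal hT.nm) := by
    intro j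
    set B := tw a j T with hB
    have hBn : B.Normal := tw_normal hT.nm
    have hBcl : IsClosed (B : Set N) := h.isClosed_tw _ hT.cl
    obtain ⟨O, hO1, hO2⟩ := hT.opn_tw h hS j
    have hfin := fin_image (B := B) hT.cpt ⟨O, hO1, fun x hx hxO => hO2 x (hT.le hx) hxO⟩
    set D := Cen T B hBn with hD
    have hDn : D.Normal := Cen_normal hT.nm hBn
    have hDf : D.FiniteIndex := Cen_finiteIndex hT.nm hBn hfin
    have hDcl : IsClosed (D : Set N) := Cen_closed hBn hBcl
    let π : N →* N ⧸ D := QuotientGroup.mk' D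
    -- representatives
    have hrep : ∃ k : ℕ, S.map π ≤ (tw a (-(k : ℤ)) T).map π := by
      have h1 : ∀ q : N ⧸ D, ∃ k : ℕ, q ∈ S.map π → q ∈ (tw a (-(k : ℤ)) T).map π := by
        intro q
        by_cases hq : q ∈ S.map π
        · obtain ⟨s, hs, rfl⟩ := hq
          obtain ⟨k, hk⟩ := hT.cov s hs
          refine ⟨k, fun _ => ⟨s, ?_, rfl⟩⟩
          change e a (- -(k : ℤ)) s ∈ T
          rw [neg_neg]; exact hk
        · exact ⟨0, fun h => absurd h hq⟩
      choose f hf using h1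
      have : Fintype (N ⧸ D) := Fintype.ofFinite _
      refine ⟨Finset.univ.sup f, fun q hq => ?_⟩
      have h2 := hf q hq
      refine Subgroup.map_mono (hT.tw_anti ?_) h2
      have : f q ≤ Finset.univ.sup f := Finset.le_sup (Finset.mem_univ q)
      omega
    obtain ⟨k, hk⟩ := hrep
    apply perfect_dser hp (n * (k + j)) D hDcl
    have h2 : dser (tw a (-(k : ℤ)) T) (n * (k + j)) ≤ D := by
      rw [dser_tw]
      have h3 := tw_mono (a := a) (k := -(k : ℤ)) (solv_tw hn (k + j))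
      rw [tw_tw] at h3
      have h4 : (-(k : ℤ) + ((k + j : ℕ) : ℤ)) = j := by push_cast; ring
      rw [h4] at h3
      exact h3.trans (le_Cen hBn)
    have h5 : (dser S (n * (k + j))).map π ≤ (dser (tw a (-(k : ℤ)) T) (n * (k + j))).map π := by
      rw [dser_map, dser_map]
      exact dser_mono hk _
    have h6 : (dser (tw a (-(k : ℤ)) T) (n * (k + j))).map π ≤ ⊥ := by
      rw [Subgroup.map_le_iff_le_comap]
      intro x hx
      have := h2 hx
      rw [Subgroup.mem_comap, Subgroup.mem_bot]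
      exact (QuotientGroup.eq_one_iff x).2 this
    intro x hx
    have h7 : π x ∈ (⊥ : Subgroup (N ⧸ D)) := h6 (h5 ⟨x, hx, rfl⟩)
    rw [Subgroup.mem_bot] at h7
    exact (QuotientGroup.eq_one_iff x).1 h7
  obtain ⟨x, hx, hx1⟩ := hT.ne
  obtain ⟨v, hv, -, hxv⟩ := hH T hT.nm x hx hx1 Set.univ univ_mem
  apply hxv
  have : ⁅x, v⁆ = 1 := inter_tw h hT.cpt fun j => key j (hT.le hx) v hv
  exact commutatorElement_eq_one_iff_mul_comm.1 this

end Pool.Agent.H15CG
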