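import Pool.Agent.H15CG.Core

/-! Part 2: minimal closed invariant normal subgroups. -/

set_option autoImplicit false
set_option linter.unusedSectionVars false

namespace Pool.Agent.H15CG

open Filter Topology Set
open scoped Pointwise

universe u

variable {N : Type u} [Group N] [TopologicalSpace N] [IsTopologicalGroup N] [T2Space N]
  [LocallyCompactSpace N] [TotallyDisconnectedSpace N]

/-- closed, normal and invariant -/
structure Good (a : MulAut N) (S : Subgroup N) : Prop where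
  cl : IsClosed (S : Set N)
  nm : S.Normal
  inv : ∀ x, e a 1 x ∈ S ↔ x ∈ S

theorem Good.inv_k {a : MulAut N} {S : Subgroup N} (hS : Good a S) (k : ℤ) (x : N) :
    e a k x ∈ S ↔ x ∈ S := by
  induction k with
  | zero => rw [e_zero]
  | succ n ih =>
    have : (n : ℤ) + 1 = 1 + n := by ring
    rw [this, e_add, hS.inv, ih]
  | pred n ih =>
    rw [← hS.inv, ← e_add]
    have : (1 : ℤ) + (-n - 1) = -n := by ring
    rw [this, ih]

/-- compact open with `a V ⊆ V` -/
structure Base (a : MulAut N) (V : Subgroup N) : Prop where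
  op : IsOpen (V : Set N)
  cpt : IsCompact (V : Set N)
  inv : ∀ x ∈ V, e a 1 x ∈ V

theorem Base.cl {a : MulAut N} {V : Subgroup N} (hV : Base a V) : IsClosed (V : Set N) :=
  Subgroup.isClosed_of_isOpen V hV.op

theorem Base.inv_n {a : MulAut N} {V : Subgroup N} (hV : Base a V) (n : ℕ) {x : N} (hx : x ∈ V) :
    e a n x ∈ V := by
  induction n with
  | zero => simpa [e_zero] using hx
  | succ n ih =>
    have : ((n + 1 : ℕ) : ℤ) = 1 + n := by push_cast; ring
    rw [this, e_add]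
    exact hV.inv _ ih

theorem Base.mono {a : MulAut N} {V : Subgroup N} (hV : Base a V) {m n : ℕ} (h : m ≤ n) {x : N}
    (hx : e a m x ∈ V) : e a n x ∈ V := by
  have := hV.inv_n (n - m) hx
  rw [← e_add] at this
  have h3 : (((n - m : ℕ) : ℤ) + m) = n := by omega
  rwa [h3] at this

theorem exists_base {a : MulAut N} (h : Con a) : ∃ V : Subgroup N, Base a V := by
  obtain ⟨W, hWo, hWc, -⟩ := vdt (N := N) Set.univ univ_mem
  have ho := pl_open h hWo
  refine ⟨pl a W, ho, ?_, fun x hx => ?_⟩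
  · exact hWc.of_isClosed_subset (Subgroup.isClosed_of_isOpen _ ho) pl_le
  · simpa using pl_inv hx 1

variable {a : MulAut N} {V : Subgroup N}

theorem exists_mem (h : Con a) (hV : Base a V) (x : N) : ∃ n : ℕ, e a n x ∈ V := by
  have h1 : ∀ᶠ n : ℕ in atTop, e a n x ∈ (V : Set N) :=
    (h.t x).eventually (hV.op.mem_nhds V.one_mem)
  obtain ⟨n, hn⟩ := eventually_atTop.1 h1
  exact ⟨n, hn n le_rfl⟩

theorem Good.shell (h : Con a) (hV : Base a V) {S : Subgroup N} (hS : Good a S) (hne : S ≠ ⊥) :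
    ∃ x ∈ S, x ∈ V ∧ e a (-1) x ∉ V := by
  by_contra hcon
  push Not at hcon
  obtain ⟨x0, hx0, hx1⟩ := (Subgroup.ne_bot_iff_exists_ne_one).1 hne |>.elim
    (fun x hx => (⟨x.1, x.2, by simpa using hx⟩ : ∃ x0, x0 ∈ S ∧ x0 ≠ 1))
  obtain ⟨n, hn⟩ := exists_mem h hV x0
  set y := e a n x0 with hy
  have hyS : y ∈ S := (hS.inv_k n x0).2 hx0
  have hy1 : y ≠ 1 := fun h => hx1 ((e_one_iff a n x0).1 h)
  have hm : ∀ m : ℕ, e a (-m) y ∈ V := by
    intro m
    induction m with
    | zero => simpa [e_zero] using hn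
    | succ m ih =>
      have : (-((m + 1 : ℕ) : ℤ)) = -1 + -m := by push_cast; ring
      rw [this, e_add]
      exact hcon _ ((hS.inv_k _ _).2 hyS) ih
  obtain ⟨m, hm2⟩ := unif h hV.cpt (O := {y}ᶜ) (isOpen_compl_singleton.mem_nhds (fun h => hy1 h.symm))
  exact hm2 m le_rfl _ (hm m) (e_cancel_neg a m y)

/-- the shell `V ∖ a V` -/
def Sh (a : MulAut N) (V : Subgroup N) : Set N := {x | x ∈ V ∧ e a (-1) x ∉ V}

theorem sh_compact (h : Con a) (hV : Base a V) : IsCompact (Sh a V) := by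
  have : Sh a V = (V : Set N) ∩ (fun x => e a (-1) x) ⁻¹' (V : Set N)ᶜ := rfl
  rw [this]
  exact hV.cpt.inter_right (hV.op.isClosed_compl.preimage (h.ce (-1)))

theorem exists_minimal (h : Con a) (hV : Base a V) (hN : ∃ x : N, x ≠ 1) :
    ∃ S : Subgroup N, Good a S ∧ S ≠ ⊥ ∧ ∀ I : Subgroup N, Good a I → I ≤ S → I ≠ ⊥ → I = S := by
  let F : Set (Set N) := {s | ∃ S : Subgroup N, Good a S ∧ S ≠ ⊥ ∧ (S : Set N) = s}
  have hZ : ∀ c ⊆ F, IsChain (· ⊆ ·) c → ∃ lb ∈ F, ∀ s ∈ c, lb ⊆ s := by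
    intro c hc hch
    rcases c.eq_empty_or_nonempty with hce | hcne
    · refine ⟨Set.univ, ⟨⊤, ⟨by simp, inferInstance, by simp⟩, ?_, by simp⟩, by simp [hce]⟩
      intro ht
      obtain ⟨x, hx⟩ := hN
      have : x ∈ (⊤ : Subgroup N) := trivial
      rw [ht] at this
      exact hx (Subgroup.mem_bot.1 this)
    · have : Nonempty c := hcne.to_subtype
      choose f hf1 hf2 hf3 using fun s : c => hc s.2
      let L : Subgroup N := ⨅ s : c, f s
      have hL : ∀ x, x ∈ L ↔ ∀ s : c, x ∈ f s := by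
        intro x
        simp [L, Subgroup.mem_iInf]
      have hLc : (L : Set N) = ⋂ s : c, (f s : Set N) := by
        ext x
        simp only [SetLike.mem_coe, mem_iInter]
        exact hL x
      have hgood : Good a L := by
        refine ⟨?_, ?_, ?_⟩
        · rw [hLc]
          exact isClosed_iInter fun s => (hf1 s).cl
        · refine ⟨fun x hx g => ?_⟩
          rw [hL] at hx ⊢
          exact fun s => (hf1 s).nm.conj_mem _ (hx s) g
        · intro x
          rw [hL, hL]
          exact forall_congr' fun s => (hf1 s).inv x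
      refine ⟨L, ⟨L, hgood, ?_, rfl⟩, ?_⟩
      · have hne : (⋂ s : c, ((f s : Set N) ∩ Sh a V)).Nonempty := by
          apply IsCompact.nonempty_iInter_of_directed_nonempty_isCompact_isClosed
          · intro s t
            rcases hch.total s.2 t.2 with hst | hst
            · refine ⟨s, subset_refl _, ?_⟩
              refine inter_subset_inter_left _ ?_
              rw [hf3, hf3]; exact hst
            · refine ⟨t, ?_, subset_refl _⟩
              refine inter_subset_inter_left _ ?_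
              rw [hf3, hf3]; exact hst
          · intro s
            obtain ⟨x, hx1, hx2, hx3⟩ := (hf1 s).shell h hV (hf2 s)
            exact ⟨x, hx1, hx2, hx3⟩
          · intro s
            exact (sh_compact h hV).inter_left (hf1 s).cl
          · intro s
            exact (hf1 s).cl.inter (sh_compact h hV).isClosed
        obtain ⟨x, hx⟩ := hne
        rw [mem_iInter] at hx
        intro hbot
        have hxL : x ∈ L := (hL x).2 fun s => (hx s).1
        rw [hbot, Subgroup.mem_bot] at hxL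
        have h2 := (hx (Classical.arbitrary c)).2.2
        rw [hxL, map_one] at h2
        exact h2 V.one_mem
      · intro s hs
        have := hf3 ⟨s, hs⟩
        intro x hx
        have h2 := (hL x).1 hx ⟨s, hs⟩
        have h3 : x ∈ (f ⟨s, hs⟩ : Set N) := h2
        rw [this] at h3
        exact h3
  obtain ⟨m, hm⟩ := zorn_superset F hZ
  obtain ⟨S, hS1, hS2, hS3⟩ := hm.prop
  refine ⟨S, hS1, hS2, fun I hI hIS hI0 => ?_⟩
  have h1 : (I : Set N) ∈ F := ⟨I, hI, hI0, rfl⟩
  have h2 := hm.le_of_le h1 (by rw [← hS3]; exact hIS)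
  apply le_antisymm hIS
  intro x hx
  have : x ∈ m := by rw [← hS3]; exact hx
  exact h2 this

theorem core_ne (h : Con a) (hV : Base a V) {S : Subgroup N} (hS : Good a S) (hne : S ≠ ⊥) :
    ∃ q, q ≠ 1 ∧ ∀ b, b * q * b⁻¹ ∈ V ⊓ S := by
  have step : ∀ n : ℕ, ∃ q, q ∈ S ∧ q ∈ Sh a V ∧ ∀ b, e a n b ∈ V → b * q * b⁻¹ ∈ V := by
    intro n
    have hO : ∀ᶠ x in 𝓝 (1 : N), ∀ v ∈ (V : Set N), v * x * v⁻¹ ∈ tw a n V := by
      apply hV.cpt.eventually_forall_of_forall_eventually
      intro v _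
      have hc : Continuous fun z : N × N => z.2 * z.1 * z.2⁻¹ := by fun_prop
      have := hc.tendsto (1, v)
      simp only [mul_one, mul_inv_cancel] at this
      exact this.eventually ((h.isOpen_tw n hV.op).mem_nhds (tw a n V).one_mem)
    obtain ⟨x0, hx0, hx1⟩ := (Subgroup.ne_bot_iff_exists_ne_one).1 hne |>.elim
      (fun x hx => (⟨x.1, x.2, by simpa using hx⟩ : ∃ x0, x0 ∈ S ∧ x0 ≠ 1))
    obtain ⟨j, hj⟩ := eventually_atTop.1 ((h.t x0).eventually hO)
    have hj := hj j le_rfl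
    set z := e a j x0 with hz
    have hzS : z ∈ S := (hS.inv_k _ _).2 hx0
    have hz1 : z ≠ 1 := fun h => hx1 ((e_one_iff a j x0).1 h)
    -- some k > n fails
    obtain ⟨m, hm⟩ := unif h hV.cpt (O := {z}ᶜ)
      (isOpen_compl_singleton.mem_nhds (fun h => hz1 h.symm))
    have hex : ∃ k : ℕ, ¬ ∀ v ∈ (V : Set N), v * z * v⁻¹ ∈ tw a (n + k : ℕ) V := by
      refine ⟨m, fun hall => ?_⟩
      have h1 := hall 1 V.one_mem
      rw [one_mul, inv_one, mul_one] at h1
      exact hm (n + m) (by omega) _ h1 (e_cancel_neg a _ z)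
    classical
    let k := Nat.find hex
    have hk : ¬ ∀ v ∈ (V : Set N), v * z * v⁻¹ ∈ tw a (n + k : ℕ) V := Nat.find_spec hex
    have hk0 : k ≠ 0 := by
      intro h0
      apply hk
      rw [h0, add_zero]
      exact hj
    obtain ⟨k', hk'⟩ := Nat.exists_eq_succ_of_ne_zero hk0
    have hk2 : ∀ v ∈ (V : Set N), v * z * v⁻¹ ∈ tw a (n + k' : ℕ) V := by
      have := Nat.find_min hex (m := k') (by omega)
      exact not_not.1 this
    push Not at hk
    obtain ⟨v0, hv0, hv1⟩ := hk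
    set K := n + k' with hK
    have hKk : n + k = K + 1 := by omega
    rw [hKk] at hv1
    have hq : e a (-(K : ℤ)) (v0 * z * v0⁻¹) ∈ V := hk2 v0 hv0
    refine ⟨e a (-(K : ℤ)) (v0 * z * v0⁻¹), ?_, ⟨hq, ?_⟩, ?_⟩
    · exact (hS.inv_k _ _).2 (hS.nm.conj_mem _ hzS _)
    · rw [← e_add]
      intro hh
      apply hv1
      rw [mem_tw]
      have : (-((K + 1 : ℕ) : ℤ)) = -1 + -K := by push_cast; ring
      rw [this]
      exact hh
    · intro b hb
      have hbK : e a K b ∈ V := hV.mono (by omega) hb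
      have h5 := hk2 (e a K b * v0) (V.mul_mem hbK hv0)
      rw [mem_tw] at h5
      have h6 : e a (-(K : ℤ)) (e a K b * v0 * z * (e a K b * v0)⁻¹)
          = b * e a (-(K : ℤ)) (v0 * z * v0⁻¹) * b⁻¹ := by
        have h7 : e a K b * v0 * z * (e a K b * v0)⁻¹ = e a K b * (v0 * z * v0⁻¹) * (e a K b)⁻¹ := by
          group
        rw [h7, map_mul, map_mul, map_inv, e_neg_cancel]
      rw [h6] at h5
      exact h5
  choose q hq1 hq2 hq3 using step
  let u : Ultrafilter ℕ := hyperfilter ℕ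
  obtain ⟨x, hx1, hx2⟩ := (sh_compact h hV).ultrafilter_le_nhds (u.map q)
    (by
      rw [Filter.le_principal_iff]
      exact Filter.Eventually.of_forall (f := (u : Filter ℕ)) hq2)
  have ht : Tendsto q (u : Filter ℕ) (𝓝 x) := hx2
  refine ⟨x, ?_, fun b => ?_⟩
  · intro hx
    apply hx1.2
    rw [hx, map_one]
    exact V.one_mem
  · have hcl : IsClosed ((V ⊓ S : Subgroup N) : Set N) := hV.cl.inter hS.cl
    have ht2 : Tendsto (fun n => b * q n * b⁻¹) (u : Filter ℕ) (𝓝 (b * x * b⁻¹)) :=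
      (ht.const_mul b).mul_const b⁻¹
    apply hcl.mem_of_tendsto ht2
    obtain ⟨m, hm⟩ := exists_mem h hV b
    have h9 : ∀ᶠ n : ℕ in (u : Filter ℕ), m ≤ n := by
      apply Filter.hyperfilter_le_cofinite
      rw [Nat.cofinite_eq_atTop]
      exact Filter.eventually_ge_atTop m
    filter_upwards [h9] with n hn
    exact ⟨hq3 n b (hV.mono hn hm), hS.nm.conj_mem _ (hq1 n) _⟩

/-- compact open normal piece of a minimal subgroup -/
structure TT (a : MulAut N) (S T : Subgroup N) : Prop where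
  cl : IsClosed (T : Set N)
  cpt : IsCompact (T : Set N)
  nm : T.Normal
  le : T ≤ S
  inv : ∀ x ∈ T, e a 1 x ∈ T
  ne : ∃ x ∈ T, x ≠ 1
  cov : ∀ x ∈ S, ∃ n : ℕ, e a n x ∈ T
  opn : ∃ O ∈ 𝓝 (1 : N), ∀ x ∈ S, x ∈ O → x ∈ T

theorem exists_TT (h : Con a) (hV : Base a V) {S : Subgroup N} (hS : Good a S) (hne : S ≠ ⊥)
    (hmin : ∀ I : Subgroup N, Good a I → I ≤ S → I ≠ ⊥ → I = S) :
    ∃ T : Subgroup N, TT a S T := by
  let T : Subgroup N := (V ⊓ S).normalCore
  have hT : ∀ x, x ∈ T ↔ ∀ b, b * x * b⁻¹ ∈ V ⊓ S := fun x => Iff.rfl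
  have hTn : T.Normal := Subgroup.normalCore_normal _
  have hTle : T ≤ V ⊓ S := Subgroup.normalCore_le _
  have hTcl : IsClosed (T : Set N) := by
    have : (T : Set N) = ⋂ b : N, (fun x => b * x * b⁻¹) ⁻¹' ((V ⊓ S : Subgroup N) : Set N) := by
      ext x
      simp only [SetLike.mem_coe, mem_iInter, mem_preimage]
      exact hT x
    rw [this]
    refine isClosed_iInter fun b => ?_
    exact (hV.cl.inter hS.cl).preimage (by fun_prop)
  have hTcpt : IsCompact (T : Set N) := hV.cpt.of_isClosed_subset hTcl (fun x hx => (hTle hx).1)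
  have hTinv : ∀ x ∈ T, e a 1 x ∈ T := by
    intro x hx b
    have h1 := hx (e a (-1) b)
    have h2 : b * e a 1 x * b⁻¹ = e a 1 (e a (-1) b * x * (e a (-1) b)⁻¹) := by
      rw [map_mul, map_mul, map_inv, e_cancel_neg]
    rw [h2]
    exact ⟨hV.inv _ h1.1, (hS.inv _).2 h1.2⟩
  have hTn' : ∀ (n : ℕ) (x : N), x ∈ T → e a n x ∈ T := by
    intro n x hx
    induction n with
    | zero => simpa [e_zero] using hx
    | succ n ih =>
      have : ((n + 1 : ℕ) : ℤ) = 1 + n := by push_cast; ring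
      rw [this, e_add]
      exact hTinv _ ih
  have hTmono : ∀ (m n : ℕ) (x : N), m ≤ n → e a m x ∈ T → e a n x ∈ T := by
    intro m n x hmn hx
    have := hTn' (n - m) _ hx
    rw [← e_add] at this
    have h3 : (((n - m : ℕ) : ℤ) + m) = n := by omega
    rwa [h3] at this
  obtain ⟨q, hq1, hq2⟩ := core_ne h hV hS hne
  have hqT : q ∈ T := hq2
  -- the union
  let S' : Subgroup N :=
    { carrier := {x | ∃ n : ℕ, e a n x ∈ T}
      mul_mem' := by
        rintro x y ⟨m, hm⟩ ⟨n, hn⟩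
        refine ⟨max m n, ?_⟩
        rw [map_mul]
        exact T.mul_mem (hTmono _ _ _ (le_max_left _ _) hm) (hTmono _ _ _ (le_max_right _ _) hn)
      one_mem' := ⟨0, by rw [map_one]; exact T.one_mem⟩
      inv_mem' := by
        rintro x ⟨m, hm⟩
        refine ⟨m, ?_⟩
        rw [map_inv]
        exact T.inv_mem hm }
  have hS' : ∀ x, x ∈ S' ↔ ∃ n : ℕ, e a n x ∈ T := fun x => Iff.rfl
  have hS'n : S'.Normal := by
    refine ⟨fun x hx g => ?_⟩
    obtain ⟨n, hn⟩ := hx
    refine ⟨n, ?_⟩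
    rw [map_mul, map_mul, map_inv]
    exact hTn.conj_mem _ hn _
  have hS'inv : ∀ x, e a 1 x ∈ S' ↔ x ∈ S' := by
    intro x
    constructor
    · rintro ⟨n, hn⟩
      refine ⟨n + 1, ?_⟩
      rw [← e_add] at hn
      exact_mod_cast hn
    · rintro ⟨n, hn⟩
      refine ⟨n, ?_⟩
      rw [← e_add, add_comm, e_add]
      exact hTinv _ hn
  have hS'S : S' ≤ S := by
    rintro x ⟨n, hn⟩
    exact (hS.inv_k n x).1 (hTle hn).2
  have hcl : S'.topologicalClosure = S := by
    apply hmin
    · refine ⟨S'.isClosed_topologicalClosure, Subgroup.is_normal_topologicalClosure S', ?_⟩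
      intro x
      have hmaps : ∀ k : ℤ, (∀ y ∈ S', e a k y ∈ S') → ∀ y ∈ S'.topologicalClosure,
          e a k y ∈ S'.topologicalClosure := by
        intro k hk y hy
        exact map_mem_closure (h.ce k) hy (fun z hz => hk z hz)
      constructor
      · intro hx
        have := hmaps (-1) (fun y hy => by
          rw [← hS'inv, e_cancel_neg]; exact hy) _ hx
        rwa [e_neg_cancel] at this
      · exact hmaps 1 (fun y hy => (hS'inv y).2 hy) x
    · exact S'.topologicalClosure_minimal hS'S hS.cl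
    · intro hb
      have : q ∈ S'.topologicalClosure := S'.le_topologicalClosure ⟨0, by
        simpa [e_zero] using hqT⟩
      rw [hb, Subgroup.mem_bot] at this
      exact hq1 this
  -- finite stage
  have hfin : ∃ n : ℕ, ∀ x ∈ V ⊓ S, ∃ t, e a n t ∈ T ∧ e a (-1) (t⁻¹ * x) ∈ V := by
    have hK : IsCompact ((V ⊓ S : Subgroup N) : Set N) := hV.cpt.inter_right hS.cl
    obtain ⟨F, hF⟩ := hK.elim_finite_subcover
      (fun t : S' => {x : N | e a (-1) ((t : N)⁻¹ * x) ∈ (V : Set N)})
      (fun t => hV.op.preimage ((h.ce (-1)).comp (continuous_const_mul _)))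
      (by
        intro x hx
        have hxcl : x ∈ closure (S' : Set N) := by
          have : x ∈ S'.topologicalClosure := by rw [hcl]; exact hx.2
          exact this
        have hop : IsOpen {t : N | e a (-1) (t⁻¹ * x) ∈ (V : Set N)} := by
          apply hV.op.preimage
          exact (h.ce (-1)).comp (continuous_inv.mul continuous_const)
        obtain ⟨t, ht1, ht2⟩ := mem_closure_iff.1 hxcl _ hop (by
          change e a (-1) (x⁻¹ * x) ∈ V
          rw [inv_mul_cancel, map_one]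
          exact V.one_mem)
        exact mem_iUnion.2 ⟨⟨t, ht2⟩, ht1⟩)
    choose f hf using fun t : S' => (hS' t).1 t.2
    refine ⟨F.sup f, fun x hx => ?_⟩
    obtain ⟨t, ht1, ht2⟩ := mem_iUnion₂.1 (hF hx)
    exact ⟨t, hTmono _ _ _ (Finset.le_sup ht1) (hf t), ht2⟩
  obtain ⟨n, hn⟩ := hfin
  have hTS : T ≤ S := fun x hx => (hTle hx).2
  have hstage : ∀ j : ℕ, ∀ x ∈ V ⊓ S, ∃ t y, e a n t ∈ T ∧ y ∈ V ⊓ S ∧ x = t * e a j y := by
    intro j
    induction j with
    | zero =>
      intro x hx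
      exact ⟨1, x, by rw [map_one]; exact T.one_mem, hx, by simp [e_zero]⟩
    | succ j ih =>
      intro x hx
      obtain ⟨t, ht1, ht2⟩ := hn x hx
      have htS : t ∈ S := (hS.inv_k n t).1 (hTS ht1)
      obtain ⟨t', y, hy1, hy2, hy3⟩ := ih (e a (-1) (t⁻¹ * x))
        ⟨ht2, (hS.inv_k _ _).2 (S.mul_mem (S.inv_mem htS) hx.2)⟩
      refine ⟨t * e a 1 t', y, ?_, hy2, ?_⟩
      · rw [map_mul]
        refine T.mul_mem ht1 ?_
        rw [← e_add, add_comm, e_add]
        exact hTinv _ hy1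
      · have h4 : t⁻¹ * x = e a 1 (t' * e a j y) := by
          rw [← hy3, e_cancel_neg]
        rw [map_mul, ← e_add] at h4
        have h5 : (1 : ℤ) + j = ((j + 1 : ℕ) : ℤ) := by push_cast; ring
        rw [h5] at h4
        rw [mul_assoc, ← h4]
        group
  have hkey : ∀ x ∈ V ⊓ S, e a n x ∈ T := by
    intro x hx
    by_contra hxT
    have hPcl : IsClosed {y : N | e a n y ∈ (T : Set N)} := hTcl.preimage (h.ce n)
    have hO : {z : N | e a n (x * z⁻¹) ∉ T} ∈ 𝓝 (1 : N) := by
      have : IsOpen {z : N | e a n (x * z⁻¹) ∉ T} := by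
        have h1 : {z : N | e a n (x * z⁻¹) ∉ T} = (fun z => x * z⁻¹) ⁻¹' {y : N | e a n y ∈ (T : Set N)}ᶜ := rfl
        rw [h1]
        exact hPcl.isOpen_compl.preimage (by fun_prop)
      apply this.mem_nhds
      change e a n (x * 1⁻¹) ∉ T
      simpa using hxT
    obtain ⟨m, hm⟩ := unif h hV.cpt hO
    obtain ⟨t, y, ht, hy, hxy⟩ := hstage m x hx
    apply hm m le_rfl y hy.1
    rw [hxy]
    simpa using ht
  refine ⟨T, hTcl, hTcpt, hTn, hTS, hTinv, ⟨q, hqT, hq1⟩, ?_, ?_⟩
  · intro x hx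
    obtain ⟨j, hj⟩ := exists_mem h hV x
    refine ⟨n + j, ?_⟩
    have := hkey _ ⟨hj, (hS.inv_k _ _).2 hx⟩
    rw [← e_add] at this
    exact_mod_cast this
  · refine ⟨tw a n V, (h.isOpen_tw n hV.op).mem_nhds (tw a n V).one_mem, ?_⟩
    intro x hx hxO
    have := hkey _ ⟨hxO, (hS.inv_k _ _).2 hx⟩
    rwa [e_cancel_neg] at this

end Pool.Agent.H15CG
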